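import Mathlib
import Pool.Agent.N873.UT.Parts3

/-!
# Rank and the two 2-isogeny Selmer ranks in simultaneous twist families

`y² = x³ + A x² + B x` with `A = -n (a² + b²)`, `B = n² a² b²` is the quadratic twist by `-n` of
`y² = x (x + a²) (x + b²)`. Let `F` be a finite set of pairs `a`, `b` as below and `n` in the set `N F`, of positive
lower density. With the definitions of the page, `f₁ = f₂ = R + 1` for all the curves of `F`, where `R` is the 4-rank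
of the class group of `ℚ(√-n)`, so `s = 2 R`, with an exact law of `R` in `N F`; in particular the natural density of
the `n` with `r = s = 0` for all the curves of `F` is at least `∏ (1 - 2^(-i)) > 0.288`.
Parts by helpers 97, 136, 273, 368, 433, 488, 519, 531, 603, 614, 615, 700, 747, 756, 767, 873, 887, 891, 966.
-/

set_option autoImplicit false

namespace Pool.Agent.Results.MP_e2b281_nt.SelmerGroupsOfTwists

open Filter NumberField
open Pool.Agent.TH841.SH.D (Sha)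
open Pool.Agent.N873.UT (Parts Parts2 Parts3 parts3 Em EQ Adm NF Pr Triv r4 gs etaR triv_iff r4_iff bound
  density law gs_iff exK F1 QS F1_card)

/-! ### The definitions of the page -/

/-- the quartic `N² = b₁ M⁴ + a M² e² + (b / b₁) e⁴` has a solution with `(M, e) ≠ (0, 0)` in `K` -/
def Solv (K : Type) [Field K] (a b b₁ : ℤ) : Prop := ∃ N M e : K, (M ≠ 0 ∨ e ≠ 0) ∧
  N ^ 2 = (b₁ : K) * M ^ 4 + (a : K) * M ^ 2 * e ^ 2 + ((b / b₁ : ℤ) : K) * e ^ 4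

/-- the squarefree divisors `b₁` of `b` whose quartic is everywhere locally solvable -/
def Loc (a b : ℤ) : Set ℤ := {b₁ | Squarefree b₁ ∧ b₁ ∣ b ∧ Solv ℝ a b b₁ ∧
  ∀ (p : ℕ) [Fact p.Prime], Solv ℚ_[p] a b b₁}

/-- `f₁` -/
noncomputable def f₁ (a b : ℤ) : ℕ := Nat.log 2 (Loc a b).ncard

/-- `f₂` -/
noncomputable def f₂ (a b : ℤ) : ℕ := Nat.log 2 (Loc (-2 * a) (a ^ 2 - 4 * b)).ncard

/-- `y² = x³ + a x² + b x` -/
def E (a b : ℤ) : WeierstrassCurve ℚ := { a₁ := 0, a₂ := (a : ℚ), a₃ := 0, a₄ := (b : ℚ), a₆ := 0 }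

/-- the rank -/
noncomputable def rk (a b : ℤ) : ℕ := Module.finrank ℤ (E a b).toAffine.Point

/-! ### The family -/

/-- the pairs -/
def Pair (c : ℤ × ℤ) : Prop := IsCoprime c.1 c.2 ∧ Odd c.1 ∧ Even c.2 ∧ c.2 ≠ 0

/-- `m` is a nonzero square modulo `p` -/
def NzSq (p : ℕ) (m : ℤ) : Prop := (m : ZMod p) ≠ 0 ∧ IsSquare (m : ZMod p)

/-- the numbers -/
def N (F : Finset (ℤ × ℤ)) : Set ℕ := {n | Squarefree n ∧ n % 8 = 3 ∧
  ∀ c ∈ F, ∀ p : ℕ, p.Prime → p ≠ 2 → ((p : ℤ) ∣ c.1 * c.2 → ¬ NzSq p (-n)) ∧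
    ((p : ℤ) ∣ c.1 ^ 2 - c.2 ^ 2 → ¬ NzSq p n)}

/-- the coefficient `a` -/
def ca (n : ℕ) (c : ℤ × ℤ) : ℤ := -(n * (c.1 ^ 2 + c.2 ^ 2))

/-- the coefficient `b` -/
def cb (n : ℕ) (c : ℤ × ℤ) : ℤ := n ^ 2 * c.1 ^ 2 * c.2 ^ 2

/-- the number of the elements of `S` up to `X` -/
noncomputable def cnt (S : Set ℕ) (X : ℕ) : ℝ := (S ∩ Set.Icc 1 X).ncard

/-- the number of the squares of the ideal classes whose order divides four: `2 ^ R`, where `R` is the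
4-rank of the class group -/
noncomputable def twoFour (K : Type) [Field K] [NumberField K] : ℕ :=
  Nat.card {y : ClassGroup (𝓞 K) // ∃ x : ClassGroup (𝓞 K), x ^ 4 = 1 ∧ x ^ 2 = y}

/-- the limit law `η_R = ∏_{i ≥ 1} (1 - 2^(-i)) / (2^(R²) ((1 - 1/2) ⋯ (1 - 1/2^R))²)` -/
noncomputable def law4 (R : ℕ) : ℝ := (∏' i : ℕ, (1 - (1 / 2 : ℝ) ^ (i + 1))) /
  (2 ^ R ^ 2 * (∏ i ∈ Finset.range R, (1 - (1 / 2 : ℝ) ^ (i + 1))) ^ 2)

lemma E_eq (n : ℕ) (c : ℤ × ℤ) : E (ca n c) (cb n c) = EQ n c.1 c.2 := by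
  apply WeierstrassCurve.ext <;> simp [E, Em, ca, cb]

lemma pair_iff (c : ℤ × ℤ) : Pair c ↔ Pr c := by
  unfold Pair Pr
  rw [Int.odd_iff, Int.even_iff]

lemma nz_iff (p : ℕ) (hp : p.Prime) (m : ℤ) : NzSq p m ↔ jacobiSym m p = 1 := by
  have : Fact p.Prime := ⟨hp⟩
  unfold NzSq
  rw [← jacobiSym.legendreSym.to_jacobiSym]
  constructor
  · rintro ⟨h1, h2⟩
    exact (legendreSym.eq_one_iff p h1).2 h2
  · intro h
    have h1 : (m : ZMod p) ≠ 0 := by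
      intro h0
      rw [(legendreSym.eq_zero_iff p m).2 h0] at h
      exact absurd h (by norm_num)
    exact ⟨h1, (legendreSym.eq_one_iff p h1).1 h⟩

lemma N_eq {F : Finset (ℤ × ℤ)} (hF : ∀ c ∈ F, Pair c) : N F = NF F := by
  ext n
  constructor
  · rintro ⟨h1, h2, h3⟩
    refine ⟨h1, h2, fun c hc => ?_⟩
    obtain ⟨k1, k2, k3, k4⟩ := (pair_iff c).1 (hF c hc)
    exact ⟨h1, h2, k1, k2, k3, k4,
      fun p hp hp2 hd h => (h3 c hc p hp hp2).1 hd ((nz_iff p hp _).2 h),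
      fun p hp hp2 hd h => (h3 c hc p hp hp2).2 hd ((nz_iff p hp _).2 h)⟩
  · rintro ⟨h1, h2, h3⟩
    refine ⟨h1, h2, fun c hc p hp hp2 => ⟨fun hd h => ?_, fun hd h => ?_⟩⟩
    · exact (h3 c hc).ab p hp hp2 hd ((nz_iff p hp _).1 h)
    · exact (h3 c hc).dd p hp hp2 hd ((nz_iff p hp _).1 h)

open scoped Classical in
lemma cnt_eq (S : Set ℕ) (X : ℕ) : cnt S X = (((Finset.Icc 1 X).filter fun n => n ∈ S).card : ℝ) := by
  unfold cnt
  rw [← Set.ncard_coe_finset]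
  congr 2
  ext n
  rw [Finset.mem_coe, Finset.mem_filter, Finset.mem_Icc, Set.mem_inter_iff, Set.mem_Icc, and_comm]

open scoped Classical in
lemma cnt_and {F : Finset (ℤ × ℤ)} (hF : ∀ c ∈ F, Pair c) (T : Set ℕ) (X : ℕ) :
    cnt {n ∈ N F | n ∈ T} X = (((Finset.Icc 1 X).filter fun n => n ∈ NF F ∧ n ∈ T).card : ℝ) := by
  unfold cnt
  rw [← Set.ncard_coe_finset]
  congr 2
  ext n
  rw [Finset.mem_coe, Finset.mem_filter, Finset.mem_Icc, Set.mem_inter_iff, Set.mem_Icc, and_comm,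
    ← N_eq hF]
  exact Iff.rfl

lemma loc_F1 (a b : ℤ) : Loc a b = F1 a b := rfl

lemma loc2 (n : ℕ) (c : ℤ × ℤ) : Loc (-2 * ca n c) (ca n c ^ 2 - 4 * cb n c) =
    F1 (2 * (n * (c.1 ^ 2 + c.2 ^ 2))) (n ^ 2 * (c.1 ^ 2 - c.2 ^ 2) ^ 2) := by
  rw [loc_F1]
  unfold ca cb
  congr 1 <;> ring

lemma two_pow (K : Type) [Field K] [NumberField K] : ∃ R : ℕ, twoFour K = 2 ^ R := by
  let G := ClassGroup (𝓞 K)
  let φ : (powMonoidHom 4 : G →* G).ker →* G := (powMonoidHom 2 : G →* G).comp (Subgroup.subtype _)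
  have h1 : IsPGroup 2 φ.range := by
    rintro ⟨y, ⟨x, hx⟩, rfl⟩
    refine ⟨1, ?_⟩
    apply Subtype.ext
    have h4 : x ^ 4 = 1 := hx
    show ((x ^ 2) ^ (2 ^ 1) : G) = 1
    rw [← pow_mul]
    exact h4
  have : Fact (Nat.Prime 2) := ⟨Nat.prime_two⟩
  obtain ⟨R, hR⟩ := IsPGroup.iff_card.1 h1
  refine ⟨R, ?_⟩
  rw [← hR]
  unfold twoFour
  refine Nat.card_congr (Equiv.subtypeEquivRight fun y => ?_)
  constructor
  · rintro ⟨x, h4, h2⟩
    exact ⟨⟨x, h4⟩, h2⟩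
  · rintro ⟨⟨x, h4⟩, h2⟩
    exact ⟨x, h4, h2⟩

lemma sha_pos {W : WeierstrassCurve ℚ} (h : Finite {x : Sha W // x + x = 0}) :
    0 < Nat.card {x : Sha W // x + x = 0} := by
  have : Nonempty {x : Sha W // x + x = 0} := ⟨⟨0, add_zero 0⟩⟩
  exact Nat.card_pos

/-- the facts about one curve -/
lemma one (P : Parts3) {n : ℕ} {c : ℤ × ℤ} (h : Adm n c.1 c.2) (K : Type) [Field K] [NumberField K]
    (h2 : Module.finrank ℚ K = 2) (hs : ∃ s : K, s ^ 2 = -(n : K)) {R : ℕ} (hR : twoFour K = 2 ^ R) :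
    (Loc (ca n c) (cb n c)).ncard = 2 ^ (R + 1) ∧
        (Loc (-2 * ca n c) (ca n c ^ 2 - 4 * cb n c)).ncard = 2 ^ (R + 1) ∧
        f₁ (ca n c) (cb n c) = R + 1 ∧ f₂ (ca n c) (cb n c) = R + 1 ∧
        rk (ca n c) (cb n c) ≤ 2 * R := by
  obtain ⟨h3, h4⟩ := F1_card P h K h2 hs
  have hr : r4 K = 2 ^ R := hR
  have e1 : (Loc (ca n c) (cb n c)).ncard = 2 ^ (R + 1) := by
    rw [pow_succ, mul_comm, ← hr]
    exact h3
  have e2 : (Loc (-2 * ca n c) (ca n c ^ 2 - 4 * cb n c)).ncard = 2 ^ (R + 1) := by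
    rw [loc2, h4, hr, pow_succ, mul_comm]
  refine ⟨e1, e2, ?_, ?_, ?_⟩
  · unfold f₁
    rw [e1, Nat.log_pow (by norm_num)]
  · unfold f₂
    rw [e2, Nat.log_pow (by norm_num)]
  · obtain ⟨h5, h6⟩ := bound P.p.p h K h2 hs
    unfold rk
    rw [E_eq]
    have h7 := sha_pos h5
    rw [hr, ← pow_mul, mul_comm R 2] at h6
    have h8 : 2 ^ Module.finrank ℤ (EQ n c.1 c.2).toAffine.Point ≤ 2 ^ (2 * R) :=
      (Nat.le_mul_of_pos_right _ h7).trans h6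
    exact (Nat.pow_le_pow_iff_right (by norm_num)).1 h8

open scoped Classical in
/-- **The theorem.** -/
theorem result (F : Finset (ℤ × ℤ)) (hF : ∀ c ∈ F, Pair c) :
    (∃ δ : ℝ, 0 < δ ∧ ∀ᶠ X : ℕ in atTop, δ * X ≤ cnt (N F) X) ∧
    (∀ n ∈ N F, ∀ (K : Type) [Field K] [NumberField K], Module.finrank ℚ K = 2 →
      (∃ s : K, s ^ 2 = -(n : K)) → ∃ R : ℕ, twoFour K = 2 ^ R ∧ ∀ c ∈ F,
        (Loc (ca n c) (cb n c)).ncard = 2 ^ (R + 1) ∧
        (Loc (-2 * ca n c) (ca n c ^ 2 - 4 * cb n c)).ncard = 2 ^ (R + 1) ∧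
        f₁ (ca n c) (cb n c) = R + 1 ∧ f₂ (ca n c) (cb n c) = R + 1 ∧
        rk (ca n c) (cb n c) ≤ 2 * R ∧
        (Even (rk (ca n c) (cb n c) + f₁ (ca n c) (cb n c) + f₂ (ca n c) (cb n c)) ↔
          Even (rk (ca n c) (cb n c)))) ∧
    (F.Nonempty → ∀ R : ℕ, Tendsto (fun X : ℕ => cnt {n ∈ N F | ∀ c ∈ F,
        f₁ (ca n c) (cb n c) = R + 1 ∧ f₂ (ca n c) (cb n c) = R + 1} X / cnt (N F) X) atTop
      (nhds (law4 R))) ∧
    (F.Nonempty → Tendsto (fun X : ℕ => cnt {n ∈ N F | ∀ c ∈ F,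
        f₁ (ca n c) (cb n c) + f₂ (ca n c) (cb n c) = 2 ∧ rk (ca n c) (cb n c) = 0} X / cnt (N F) X) atTop
      (nhds (∏' i : ℕ, (1 - (1 / 2 : ℝ) ^ (i + 1))))) ∧
    (∀ ε : ℝ, 0 < ε → ∀ᶠ X : ℕ in atTop, (∏' i : ℕ, (1 - (1 / 2 : ℝ) ^ (i + 1)) - ε) * cnt (N F) X ≤
      cnt {n ∈ N F | ∀ c ∈ F,
        Even (rk (ca n c) (cb n c) + f₁ (ca n c) (cb n c) + f₂ (ca n c) (cb n c))} X) := by
  have P : Parts3 := parts3
  have hF' : ∀ c ∈ F, Pr c := fun c hc => (pair_iff c).1 (hF c hc)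
  have hadm : ∀ n ∈ N F, ∀ c ∈ F, Adm n c.1 c.2 := by
    intro n hn c hc
    rw [N_eq hF] at hn
    exact hn.2.2 c hc
  obtain ⟨δ, hδ, X₁, hlow⟩ := P.p.p.low F hF'
  have hlow' : ∀ X : ℕ, X₁ ≤ X → δ * X ≤ cnt (N F) X := by
    intro X hX
    rw [cnt_eq, N_eq hF]
    exact hlow X hX
  -- the law in terms of `gs`
  have hlaw : ∀ R : ℕ, Tendsto (fun X : ℕ => cnt {n ∈ N F | n ∈ {n : ℕ | gs n = 2 ^ (R + 1)}} X /
      cnt (N F) X) atTop (nhds (law4 R)) := by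
    intro R
    refine Tendsto.congr (fun X => ?_) (law P.p F hF' R)
    rw [cnt_and hF, cnt_eq (N F), N_eq hF]
    congr 3
    ext n
    simp only [Finset.mem_filter, Set.mem_ofPred_eq]
  -- the fields
  have hfld : ∀ n ∈ N F, ∃ R : ℕ, gs n = 2 ^ (R + 1) ∧ ∀ c ∈ F,
      f₁ (ca n c) (cb n c) = R + 1 ∧ f₂ (ca n c) (cb n c) = R + 1 ∧ rk (ca n c) (cb n c) ≤ 2 * R := by
    intro n hn
    have hsq := hn.1
    have h4 : n % 4 = 3 := by
      have := hn.2.1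
      omega
    obtain ⟨K, i1, i2, h2, hs⟩ := exK n hsq.ne_zero
    obtain ⟨R, hR⟩ := two_pow K
    refine ⟨R, ?_, fun c hc => (one P (hadm n hn c hc) K h2 hs hR).2.2⟩
    rw [gs_iff P.p hsq h4 K h2 hs, pow_succ, mul_comm, ← hR]
    rfl
  have h0 : law4 0 = ∏' i : ℕ, (1 - (1 / 2 : ℝ) ^ (i + 1)) := by
    unfold law4
    simp
  refine ⟨⟨δ, hδ, eventually_atTop.2 ⟨X₁, hlow'⟩⟩, ?_, ?_, ?_, ?_⟩
  · intro n hn K _ _ h2 hs
    obtain ⟨R, hR⟩ := two_pow K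
    refine ⟨R, hR, fun c hc => ?_⟩
    obtain ⟨e1, e2, e3, e4, e5⟩ := one P (hadm n hn c hc) K h2 hs hR
    refine ⟨e1, e2, e3, e4, e5, ?_⟩
    rw [e3, e4, Nat.even_iff, Nat.even_iff]
    omega
  · rintro ⟨c₀, hc₀⟩ R
    have e : {n ∈ N F | n ∈ {n : ℕ | gs n = 2 ^ (R + 1)}} = {n ∈ N F | ∀ c ∈ F,
        f₁ (ca n c) (cb n c) = R + 1 ∧ f₂ (ca n c) (cb n c) = R + 1} := by
      ext n
      refine and_congr_right fun hn => ?_
      obtain ⟨R', h1, h2⟩ := hfld n hn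
      constructor
      · intro h c hc
        have h3 : 2 ^ (R + 1) = 2 ^ (R' + 1) := h.symm.trans h1
        have h5 := Nat.pow_right_injective (le_refl 2) h3
        have h6 : R = R' := by
          simpa using h5
        rw [h6]
        exact ⟨(h2 c hc).1, (h2 c hc).2.1⟩
      · intro h
        have h3 : R + 1 = R' + 1 := (h c₀ hc₀).1.symm.trans (h2 c₀ hc₀).1
        show gs n = 2 ^ (R + 1)
        rw [h1, h3]
    rw [← e]
    exact hlaw R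
  · rintro ⟨c₀, hc₀⟩
    have e : {n ∈ N F | n ∈ {n : ℕ | gs n = 2 ^ (0 + 1)}} = {n ∈ N F | ∀ c ∈ F,
        f₁ (ca n c) (cb n c) + f₂ (ca n c) (cb n c) = 2 ∧ rk (ca n c) (cb n c) = 0} := by
      ext n
      refine and_congr_right fun hn => ?_
      obtain ⟨R', h1, h2⟩ := hfld n hn
      constructor
      · intro h c hc
        have h3 : 2 ^ (0 + 1) = 2 ^ (R' + 1) := h.symm.trans h1
        have h5 := Nat.pow_right_injective (le_refl 2) h3
        have h6 : R' = 0 := by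
          simpa using h5
        subst h6
        obtain ⟨g1, g2, g3⟩ := h2 c hc
        rw [g1, g2]
        omega
      · intro h
        obtain ⟨g1, g2, g3⟩ := h2 c₀ hc₀
        have h3 := (h c₀ hc₀).1
        rw [g1, g2] at h3
        have h4 : R' = 0 := by omega
        show gs n = 2 ^ (0 + 1)
        rw [h1, h4]
    rw [← e, ← h0]
    exact hlaw 0
  · intro ε hε
    have h1 := (hlaw 0).eventually (lt_mem_nhds (show law4 0 - ε < law4 0 by linarith))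
    filter_upwards [h1, eventually_ge_atTop (max X₁ 1)] with X hX hX'
    have hX1 : X₁ ≤ X := (le_max_left _ _).trans hX'
    have hX2 : 1 ≤ X := (le_max_right _ _).trans hX'
    have hXR : (0 : ℝ) < X := by exact_mod_cast hX2
    have hB : (0 : ℝ) < cnt (N F) X := lt_of_lt_of_le (by positivity) (hlow' X hX1)
    rw [lt_div_iff₀ hB, h0] at hX
    refine hX.le.trans ?_
    unfold cnt
    rw [Nat.cast_le]
    refine Set.ncard_le_ncard ?_ ((Set.finite_Icc 1 X).inter_of_right _)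
    rintro n ⟨⟨hn, hg⟩, hnX⟩
    refine ⟨⟨hn, fun c hc => ?_⟩, hnX⟩
    obtain ⟨R', h1, h2⟩ := hfld n hn
    have h3 : 2 ^ (0 + 1) = 2 ^ (R' + 1) := hg.symm.trans h1
    have h5 := Nat.pow_right_injective (le_refl 2) h3
    have h6 : R' = 0 := by
      simpa using h5
    subst h6
    obtain ⟨g1, g2, g3⟩ := h2 c hc
    have g4 : rk (ca n c) (cb n c) = 0 := by omega
    rw [g1, g2, g4]
    exact ⟨1, rfl⟩

end Pool.Agent.Results.MP_e2b281_nt.SelmerGroupsOfTwists
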